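import Pool.Agent.Helper63.P705.NUM.Goals

/-!
# N14: floors of moments and of Gamma(1+th) Gamma(1-th)
-/

set_option autoImplicit false

namespace Pool.Agent.Helper8.P705

open Pool.Agent.Helper63.P705
open Pool.Agent.Helper53.PT (mo m3 f0 f1 f2)

theorem fld_lt (T w i : ℕ) : fld T w i < 2 ^ w := by
  rw [fld_eq]
  exact Nat.mod_lt _ (by positivity)

theorem cast_div_bounds (m n : ℕ) (hn : 0 < n) :
    ((m / n : ℕ) : ℝ) ≤ (m : ℝ) / n ∧ (m : ℝ) / n < ((m / n : ℕ) : ℝ) + 1 := by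
  refine ⟨Nat.cast_div_le, ?_⟩
  have h1 : m < n * (m / n + 1) := Nat.lt_mul_div_succ m hn
  have h2 : (m : ℝ) < n * (((m / n : ℕ) : ℝ) + 1) := by exact_mod_cast h1
  rw [div_lt_iff₀ (by exact_mod_cast hn)]
  linarith

theorem momN_eq (a j c : ℕ) (hc : cnd (Nat.beq j 2) 24 (cnd (Nat.beq j 3) 720 40320) = c) :
    momN a j = (fld (acf a) 160 j * c) / 2 ^ (60 + 6 * j) := by
  unfold momN
  rw [hc]
  generalize fld (acf a) 160 j = F
  show (F * c) >>> (60 + 6 * j) = _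
  rw [Nat.shiftRight_eq_div_pow]

theorem sg2N_eq (a g0 g1 g2 : ℕ) (h0 : fld GT 128 0 = g0) (h1 : fld GT 128 a = g1)
    (h2 : fld GT 128 (Nat.sub 8192 a) = g2) :
    sg2N a = (g1 * g2 * 655360 * 2 ^ 40) / ((8192 - a) * (g0 * g0)) := by
  unfold sg2N
  rw [h0, h1, h2]
  show ((g1 * g2 * 655360) <<< 40) / ((8192 - a) * (g0 * g0)) = _
  rw [Nat.shiftLeft_eq]

/-- the arithmetic of the moments -/
theorem mom_arith (F N m : ℝ) (j : ℕ) (c : ℝ) (hj : (j = 2 ∧ c = 24) ∨ (j = 3 ∧ c = 720) ∨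
    (j = 4 ∧ c = 40320)) (hF : F < 2 ^ 160)
    (h : |F - 2 ^ 100 * 64 ^ j * (m / c)| ≤ 2⁻¹ ^ 95 * (2 ^ 100 * 64 ^ j * (m / c)))
    (h1 : N ≤ F * c / 2 ^ (60 + 6 * j)) (h2 : F * c / 2 ^ (60 + 6 * j) < N + 1) :
    |N / 2 ^ 40 - m| ≤ 2⁻¹ ^ 39 := by
  obtain ⟨ha, hb⟩ := abs_le.mp h
  rcases hj with ⟨rfl, rfl⟩ | ⟨rfl, rfl⟩ | ⟨rfl, rfl⟩ <;> norm_num at * <;> rw [abs_le] <;>
    constructor <;> linarith

theorem Gamma_le_one {x : ℝ} (h1 : 1 ≤ x) (h2 : x ≤ 2) : Real.Gamma x ≤ 1 := by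
  have hc := Real.convexOn_Gamma
  have h := hc.le_max_of_mem_Icc (x := 1) (y := 2) (z := x) (by simp) (by simp) ⟨h1, h2⟩
  rw [Real.Gamma_one, Real.Gamma_two, max_self] at h
  exact h

/-- the arithmetic of the quotient -/
theorem quo_arith (A B C K g0 g1 g2 V : ℝ) (hA : 0 < A) (hB : 0 < B) (hC : 0 < C) (hK : 0 < K)
    (h1 : |g1 - A| ≤ 2⁻¹ ^ 106 * A) (h2 : |g2 - B| ≤ 2⁻¹ ^ 106 * B)
    (h0 : |g0 - C| ≤ 2⁻¹ ^ 106 * C) (hV : V = A * B * K / (C * C)) (hV2 : V ≤ 2) :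
    0 < g0 ∧ |g1 * g2 * K / (g0 * g0) - V| ≤ 2⁻¹ ^ 50 := by
  obtain ⟨a1, b1⟩ := abs_le.mp h1
  obtain ⟨a2, b2⟩ := abs_le.mp h2
  obtain ⟨a0, b0⟩ := abs_le.mp h0
  set δ : ℝ := 2⁻¹ ^ 106 with hδ
  have hδ0 : 0 < δ := by positivity
  have hδ1 : δ ≤ 2⁻¹ ^ 106 := le_rfl
  have hδ2 : δ < 1 := by rw [hδ]; norm_num
  have g0l : (1 - δ) * C ≤ g0 := by linarith
  have g0u : g0 ≤ (1 + δ) * C := by linarith
  have g1l : (1 - δ) * A ≤ g1 := by linarith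
  have g1u : g1 ≤ (1 + δ) * A := by linarith
  have g2l : (1 - δ) * B ≤ g2 := by linarith
  have g2u : g2 ≤ (1 + δ) * B := by linarith
  have hm : 0 < 1 - δ := by linarith
  have g0p : 0 < g0 := lt_of_lt_of_le (mul_pos hm hC) g0l
  have g1p : 0 < g1 := lt_of_lt_of_le (mul_pos hm hA) g1l
  have g2p : 0 < g2 := lt_of_lt_of_le (mul_pos hm hB) g2l
  refine ⟨g0p, ?_⟩
  have hVp : 0 < V := by rw [hV]; positivity
  have hVC : A * B * K = V * (C * C) := by rw [hV]; field_simp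
  -- upper bound
  have hup : g1 * g2 * K / (g0 * g0) ≤ V * ((1 + δ) ^ 2 / (1 - δ) ^ 2) := by
    rw [div_le_iff₀ (mul_pos g0p g0p), ← mul_div_assoc, div_mul_eq_mul_div,
      le_div_iff₀ (by positivity)]
    have e1 : g1 * g2 ≤ (1 + δ) * A * ((1 + δ) * B) :=
      mul_le_mul g1u g2u g2p.le (by positivity)
    have e2 : (1 - δ) * C * ((1 - δ) * C) ≤ g0 * g0 :=
      mul_le_mul g0l g0l (by positivity) g0p.le
    calc g1 * g2 * K * (1 - δ) ^ 2 ≤ (1 + δ) * A * ((1 + δ) * B) * K * (1 - δ) ^ 2 := by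
          gcongr
      _ = V * (1 + δ) ^ 2 * ((1 - δ) * C * ((1 - δ) * C)) := by
          have : (1 + δ) * A * ((1 + δ) * B) * K * (1 - δ) ^ 2 =
            (A * B * K) * (1 + δ) ^ 2 * (1 - δ) ^ 2 := by ring
          rw [this, hVC]; ring
      _ ≤ V * (1 + δ) ^ 2 * (g0 * g0) := by gcongr
  have hlo : V * ((1 - δ) ^ 2 / (1 + δ) ^ 2) ≤ g1 * g2 * K / (g0 * g0) := by
    rw [le_div_iff₀ (mul_pos g0p g0p), ← mul_div_assoc, div_mul_eq_mul_div,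
      div_le_iff₀ (by positivity)]
    have e1 : (1 - δ) * A * ((1 - δ) * B) ≤ g1 * g2 :=
      mul_le_mul g1l g2l (by positivity) g1p.le
    have e2 : g0 * g0 ≤ (1 + δ) * C * ((1 + δ) * C) :=
      mul_le_mul g0u g0u g0p.le (by positivity)
    calc V * (1 - δ) ^ 2 * (g0 * g0) ≤ V * (1 - δ) ^ 2 * ((1 + δ) * C * ((1 + δ) * C)) := by
          gcongr
      _ = (1 - δ) * A * ((1 - δ) * B) * K * (1 + δ) ^ 2 := by
          have : (1 - δ) * A * ((1 - δ) * B) * K * (1 + δ) ^ 2 =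
            (A * B * K) * (1 - δ) ^ 2 * (1 + δ) ^ 2 := by ring
          rw [this, hVC]; ring
      _ ≤ g1 * g2 * K * (1 + δ) ^ 2 := by gcongr
  have hu2 : (1 + δ) ^ 2 / (1 - δ) ^ 2 ≤ 1 + 2⁻¹ ^ 51 := by rw [hδ]; norm_num
  have hl2 : 1 - 2⁻¹ ^ 51 ≤ (1 - δ) ^ 2 / (1 + δ) ^ 2 := by rw [hδ]; norm_num
  have hu3 := mul_le_mul_of_nonneg_left hu2 hVp.le
  have hl3 := mul_le_mul_of_nonneg_left hl2 hVp.le
  have hs : V * 2⁻¹ ^ 51 ≤ 2⁻¹ ^ 50 := by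
    have : V * 2⁻¹ ^ 51 ≤ 2 * 2⁻¹ ^ 51 := mul_le_mul_of_nonneg_right hV2 (by positivity)
    refine this.trans (le_of_eq ?_)
    norm_num
  rw [abs_le]
  constructor
  · nlinarith
  · nlinarith

theorem V_eq (h4 : ∀ x : ℝ, 0 < x → gG (x + 1) = x / 80 * gG x ∧ 0 < gG x) (θ : ℝ) (h0 : 0 < θ)
    (h1 : θ < 1 / 2) : Real.Gamma (1 + θ) * Real.Gamma (1 - θ) =
    (256 * gG (1 + θ)) * (256 * gG (1 + (1 - θ))) * (80 / (1 - θ)) /
      ((256 * gG 1) * (256 * gG 1)) := by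
  have hp : 0 < 1 - θ := by linarith
  have e1 : gG (1 + (1 - θ)) = (1 - θ) / 80 * gG (1 - θ) := by
    rw [add_comm]
    exact (h4 (1 - θ) hp).1
  have hg1 : 0 < gG 1 := (h4 1 one_pos).2
  have e2 : Real.Gamma (1 + θ) * Real.Gamma (1 - θ) * (gG 1 * gG 1) = gG (1 + θ) * gG (1 - θ) := by
    unfold gG
    rw [Real.Gamma_one]
    have e3 : (80 : ℝ) ^ (-(1 + θ)) * (80 : ℝ) ^ (-(1 - θ)) = (80 : ℝ) ^ (-(1 : ℝ)) *
        (80 : ℝ) ^ (-(1 : ℝ)) := by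
      rw [← Real.rpow_add (by norm_num), ← Real.rpow_add (by norm_num)]
      congr 1
      ring
    calc Real.Gamma (1 + θ) * Real.Gamma (1 - θ) *
          (1 * (80 : ℝ) ^ (-(1 : ℝ)) * Real.exp 80 * (1 * (80 : ℝ) ^ (-(1 : ℝ)) * Real.exp 80))
        = Real.Gamma (1 + θ) * Real.Gamma (1 - θ) * ((80 : ℝ) ^ (-(1 : ℝ)) *
          (80 : ℝ) ^ (-(1 : ℝ))) * Real.exp 80 * Real.exp 80 := by ring
      _ = Real.Gamma (1 + θ) * Real.Gamma (1 - θ) * ((80 : ℝ) ^ (-(1 + θ)) *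
          (80 : ℝ) ^ (-(1 - θ))) * Real.exp 80 * Real.exp 80 := by rw [e3]
      _ = _ := by ring
  rw [e1, eq_div_iff (by positivity)]
  calc Real.Gamma (1 + θ) * Real.Gamma (1 - θ) * (256 * gG 1 * (256 * gG 1))
      = 65536 * (Real.Gamma (1 + θ) * Real.Gamma (1 - θ) * (gG 1 * gG 1)) := by ring
    _ = 65536 * (gG (1 + θ) * gG (1 - θ)) := by rw [e2]
    _ = _ := by
      field_simp
      ring

theorem V_le (θ : ℝ) (h0 : 0 < θ) (h1 : θ < 1 / 2) :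
    Real.Gamma (1 + θ) * Real.Gamma (1 - θ) ≤ 2 := by
  have e1 := Gamma_le_one (x := 1 + θ) (by linarith) (by linarith)
  have e2 := Gamma_le_one (x := (1 - θ) + 1) (by linarith) (by linarith)
  have hp : 0 < 1 - θ := by linarith
  rw [Real.Gamma_add_one hp.ne'] at e2
  have g1 : 0 < Real.Gamma (1 + θ) := Real.Gamma_pos_of_pos (by linarith)
  have g2 : 0 < Real.Gamma (1 - θ) := Real.Gamma_pos_of_pos hp
  have e3 : Real.Gamma (1 - θ) ≤ 2 := by nlinarith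
  nlinarith

theorem n14 : N14 := by
  intro h4 hg hf a ha1 ha2
  constructor
  · intro j hj2 hj4
    have hF := hf a ha1 ha2 j hj4
    unfold Tj al at hF
    have hlt : (fld (acf a) 160 j : ℝ) < 2 ^ 160 := by exact_mod_cast fld_lt (acf a) 160 j
    have key : ∀ c : ℕ, cnd (Nat.beq j 2) 24 (cnd (Nat.beq j 3) 720 40320) = c →
        (momN a j : ℝ) ≤ (fld (acf a) 160 j : ℝ) * c / 2 ^ (60 + 6 * j) ∧
        (fld (acf a) 160 j : ℝ) * c / 2 ^ (60 + 6 * j) < (momN a j : ℝ) + 1 := by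
      intro c hc
      rw [momN_eq a j c hc]
      have := cast_div_bounds (fld (acf a) 160 j * c) (2 ^ (60 + 6 * j)) (by positivity)
      push_cast at this
      exact this
    have hjc : j = 2 ∨ j = 3 ∨ j = 4 := by omega
    rcases hjc with rfl | rfl | rfl
    · obtain ⟨k1, k2⟩ := key 24 rfl
      exact mom_arith _ _ _ 2 24 (Or.inl ⟨rfl, rfl⟩) hlt
        (by simpa [Nat.factorial] using hF) (by exact_mod_cast k1) (by exact_mod_cast k2)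
    · obtain ⟨k1, k2⟩ := key 720 rfl
      exact mom_arith _ _ _ 3 720 (Or.inr (Or.inl ⟨rfl, rfl⟩)) hlt
        (by simpa [Nat.factorial] using hF) (by exact_mod_cast k1) (by exact_mod_cast k2)
    · obtain ⟨k1, k2⟩ := key 40320 rfl
      exact mom_arith _ _ _ 4 40320 (Or.inr (Or.inr ⟨rfl, rfl⟩)) hlt
        (by simpa [Nat.factorial] using hF) (by exact_mod_cast k1) (by exact_mod_cast k2)
  · obtain ⟨h4a, -, -, -⟩ := h4
    set θ : ℝ := (a : ℝ) / 8192 with hθ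
    have ha1' : (2048 : ℝ) ≤ a := by exact_mod_cast ha1
    have ha2' : (a : ℝ) < 4096 := by exact_mod_cast ha2
    have hθ0 : 0 < θ := by rw [hθ]; positivity
    have hθ1 : θ < 1 / 2 := by
      rw [hθ, div_lt_iff₀ (by norm_num)]
      linarith
    obtain ⟨g1, hg1⟩ : ∃ g, g = gent a := ⟨_, rfl⟩
    obtain ⟨g2, hg2⟩ : ∃ g, g = gent (8192 - a) := ⟨_, rfl⟩
    obtain ⟨g0, hg0⟩ : ∃ g, g = gent 0 := ⟨_, rfl⟩
    obtain ⟨b1, c1⟩ := hg a (by omega)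
    obtain ⟨b2, c2⟩ := hg (8192 - a) (by omega)
    obtain ⟨b0, c0⟩ := hg 0 (by norm_num)
    rw [← hg1] at b1 c1
    rw [← hg2] at b2 c2
    rw [← hg0] at b0 c0
    clear hg1 hg2 hg0
    have hs : ((8192 - a : ℕ) : ℝ) = 8192 - a := by
      rw [Nat.cast_sub (by omega)]; norm_num
    have hs2 : ((8192 - a : ℕ) : ℝ) / 8192 = 1 - θ := by
      rw [hs, hθ]; field_simp
    rw [hs2] at b2
    rw [Nat.cast_zero, zero_div, add_zero] at b0
    have hpos1 : 0 < 256 * gG (1 + θ) := mul_pos (by norm_num) (h4a _ (by linarith)).2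
    have hpos2 : 0 < 256 * gG (1 + (1 - θ)) := mul_pos (by norm_num) (h4a _ (by linarith)).2
    have hpos0 : 0 < 256 * gG 1 := mul_pos (by norm_num) (h4a _ (by linarith)).2
    have hK : 0 < 80 / (1 - θ) := div_pos (by norm_num) (by linarith)
    obtain ⟨g0p, hQ⟩ := quo_arith _ _ _ _ _ _ _ _ hpos1 hpos2 hpos0 hK b1 b2 b0
      (V_eq h4a θ hθ0 hθ1) (V_le θ hθ0 hθ1)
    have hKe : 80 / (1 - θ) = 655360 / (8192 - a) := by
      rw [hθ, div_eq_div_iff (by linarith [hθ1]) (by linarith)]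
      ring
    rw [hKe] at hQ
    have g0n : 0 < g0 := by exact_mod_cast g0p
    rw [sg2N_eq a g0 g1 g2 c0 c1 c2]
    have hden : 0 < (8192 - a) * (g0 * g0) := Nat.mul_pos (by omega) (Nat.mul_pos g0n g0n)
    obtain ⟨k1, k2⟩ := cast_div_bounds (g1 * g2 * 655360 * 2 ^ 40) ((8192 - a) * (g0 * g0)) hden
    set N : ℝ := ((g1 * g2 * 655360 * 2 ^ 40 / ((8192 - a) * (g0 * g0)) : ℕ) : ℝ) with hN
    have e5 : (((g1 * g2 * 655360 * 2 ^ 40 : ℕ) : ℝ) / (((8192 - a) * (g0 * g0) : ℕ) : ℝ)) =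
        2 ^ 40 * ((g1 : ℝ) * g2 * (655360 / (8192 - a)) / (g0 * g0)) := by
      rw [Nat.cast_mul (8192 - a), hs]
      push_cast
      have : (8192 - a : ℝ) ≠ 0 := by linarith
      field_simp
      norm_num
    rw [e5] at k1 k2
    obtain ⟨q1, q2⟩ := abs_le.mp hQ
    rw [abs_le]
    norm_num at k1 k2 q1 q2 ⊢
    constructor <;> linarith

end Pool.Agent.Helper8.P705
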